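import Mathlib
import Pool.Agent.W560.EW.Stm

/-!
# Log-concavity of real-rooted polynomials with nonnegative coefficients
-/

set_option autoImplicit false

open Polynomial

namespace Pool.Agent.W366.EW

open Pool.Agent.W560.EW

/-- A real-rooted polynomial splits. -/
theorem rr_prod : ∀ (n : ℕ) (p : ℝ[X]), p ≠ 0 → p.natDegree = n → RR p →
    ∃ (a : ℝ) (s : Multiset ℝ), p = C a * (s.map (fun r => X - C r)).prod := by
  intro n
  induction n with
  | zero =>
    intro p _ hd _
    refine ⟨p.coeff 0, 0, ?_⟩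
    rw [Multiset.map_zero, Multiset.prod_zero, mul_one]
    exact Polynomial.eq_C_of_natDegree_eq_zero hd
  | succ n ih =>
    intro p hp hd hr
    have hdeg : p.degree ≠ 0 := by
      intro h
      have h2 := Polynomial.natDegree_eq_zero_iff_degree_le_zero.2 h.le
      omega
    obtain ⟨z, hz⟩ := IsAlgClosed.exists_aeval_eq_zero ℂ p hdeg
    have him := hr z hz
    have hzr : z = ((z.re : ℝ) : ℂ) := by
      refine Complex.ext ?_ ?_
      · rw [Complex.ofReal_re]
      · rw [Complex.ofReal_im, him]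
    have hroot : p.IsRoot z.re := by
      have h1 : Polynomial.aeval ((z.re : ℝ) : ℂ) p = ((p.eval z.re : ℝ) : ℂ) := by
        have := Polynomial.aeval_algebraMap_apply ℂ z.re p
        rw [Polynomial.coe_aeval_eq_eval] at this
        exact this
      rw [hzr, h1] at hz
      exact_mod_cast hz
    obtain ⟨q, hq⟩ := Polynomial.dvd_iff_isRoot.2 hroot
    have hq0 : q ≠ 0 := by
      intro h
      apply hp
      rw [hq, h, mul_zero]
    have hqd : q.natDegree = n := by
      have h1 : p.natDegree = (X - C z.re : ℝ[X]).natDegree + q.natDegree := by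
        conv_lhs => rw [hq]
        exact Polynomial.natDegree_mul (Polynomial.X_sub_C_ne_zero _) hq0
      rw [Polynomial.natDegree_X_sub_C] at h1
      omega
    have hqr : RR q := by
      intro w hw
      apply hr w
      rw [hq, map_mul, hw, mul_zero]
    obtain ⟨a, s, hs⟩ := ih q hq0 hqd hqr
    refine ⟨a, z.re ::ₘ s, ?_⟩
    rw [Multiset.map_cons, Multiset.prod_cons]
    conv_lhs => rw [hq, hs]
    ring

/-- No positive roots. -/
theorem no_pos (p : ℝ[X]) (hp : p ≠ 0) (h : ∀ k, 0 ≤ p.coeff k) (r : ℝ) (hr : p.eval r = 0) :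
    r ≤ 0 := by
  by_contra hr0
  have hr0 : 0 < r := not_le.1 hr0
  rw [Polynomial.eval_eq_sum_range] at hr
  have h1 : ∀ k ∈ Finset.range (p.natDegree + 1), 0 ≤ p.coeff k * r ^ k := fun k _ =>
    mul_nonneg (h k) (pow_nonneg hr0.le k)
  have h2 := (Finset.sum_eq_zero_iff_of_nonneg h1).1 hr p.natDegree
    (Finset.mem_range.2 (Nat.lt_succ_self _))
  have h3 : p.coeff p.natDegree ≠ 0 := Polynomial.leadingCoeff_ne_zero.2 hp
  exact (mul_ne_zero h3 (pow_ne_zero _ hr0.ne')) h2

/-- The two by two minors. -/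
def LC (A : ℕ → ℝ) : Prop := (∀ k, 0 ≤ A k) ∧ ∀ i j : ℕ, i ≤ j → A i * A (j + 1) ≤ A (i + 1) * A j

theorem lc_step (A B : ℕ → ℝ) (ρ : ℝ) (hρ : 0 ≤ ρ) (hA : LC A) (h0 : B 0 = ρ * A 0)
    (h1 : ∀ k, B (k + 1) = A k + ρ * A (k + 1)) : LC B := by
  obtain ⟨hA0, hA1⟩ := hA
  refine ⟨fun k => ?_, fun i j hij => ?_⟩
  · cases k with
    | zero =>
      rw [h0]
      exact mul_nonneg hρ (hA0 0)
    | succ k =>
      rw [h1]
      exact add_nonneg (hA0 k) (mul_nonneg hρ (hA0 _))
  · cases j with
    | zero =>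
      have hi : i = 0 := by omega
      subst hi
      exact (mul_comm _ _).le
    | succ j =>
      cases i with
      | zero =>
        rw [h0, h1, h1, h1]
        have e1 := hA1 0 (j + 1) (by omega)
        have e2 : 0 ≤ ρ * ρ * (A (0 + 1) * A (j + 1) - A 0 * A (j + 1 + 1)) :=
          mul_nonneg (mul_nonneg hρ hρ) (sub_nonneg.2 e1)
        have e3 : 0 ≤ A 0 * A j := mul_nonneg (hA0 _) (hA0 _)
        have e4 : 0 ≤ ρ * (A (0 + 1) * A j) := mul_nonneg hρ (mul_nonneg (hA0 _) (hA0 _))
        have e5 : (A 0 + ρ * A (0 + 1)) * (A j + ρ * A (j + 1)) -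
            ρ * A 0 * (A (j + 1) + ρ * A (j + 1 + 1)) = A 0 * A j + ρ * (A (0 + 1) * A j) +
              ρ * ρ * (A (0 + 1) * A (j + 1) - A 0 * A (j + 1 + 1)) := by ring
        linarith
      | succ i =>
        rw [h1, h1, h1, h1]
        have e1 := hA1 i j (by omega)
        have e2 := hA1 (i + 1) (j + 1) (by omega)
        have e3 : A i * A (j + 1 + 1) ≤ A (i + 1 + 1) * A j := by
          by_cases hc : i = j
          · subst hc
            exact (mul_comm _ _).le
          · exact (hA1 i (j + 1) (by omega)).trans (hA1 (i + 1) j (by omega))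
        have e4 : 0 ≤ ρ * (A (i + 1 + 1) * A j - A i * A (j + 1 + 1)) :=
          mul_nonneg hρ (sub_nonneg.2 e3)
        have e5 : 0 ≤ ρ * ρ * (A (i + 1 + 1) * A (j + 1) - A (i + 1) * A (j + 1 + 1)) :=
          mul_nonneg (mul_nonneg hρ hρ) (sub_nonneg.2 e2)
        have e6 : (A (i + 1) + ρ * A (i + 1 + 1)) * (A j + ρ * A (j + 1)) -
            (A i + ρ * A (i + 1)) * (A (j + 1) + ρ * A (j + 1 + 1)) =
            (A (i + 1) * A j - A i * A (j + 1)) +
              ρ * (A (i + 1 + 1) * A j - A i * A (j + 1 + 1)) +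
              ρ * ρ * (A (i + 1 + 1) * A (j + 1) - A (i + 1) * A (j + 1 + 1)) := by ring
        linarith

theorem lc_prod (a : ℝ) (ha : 0 ≤ a) (s : Multiset ℝ) : (∀ r ∈ s, r ≤ 0) →
    LC (fun k => (C a * (s.map (fun r => X - C r)).prod).coeff k) := by
  induction s using Multiset.induction with
  | empty =>
    intro _
    rw [Multiset.map_zero, Multiset.prod_zero, mul_one]
    refine ⟨fun k => ?_, fun i j _ => ?_⟩
    · show 0 ≤ (C a).coeff k
      rw [coeff_C]
      split_ifs
      · exact ha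
      · exact le_rfl
    · show (C a).coeff i * (C a).coeff (j + 1) ≤ (C a).coeff (i + 1) * (C a).coeff j
      rw [coeff_C_succ, coeff_C_succ, mul_zero, zero_mul]
  | cons r s ih =>
    intro h
    have h1 := ih fun r' hr' => h r' (Multiset.mem_cons_of_mem hr')
    have hr : 0 ≤ -r := by
      have := h r (Multiset.mem_cons_self r s)
      linarith
    have e : C a * ((r ::ₘ s).map (fun r => X - C r)).prod =
        X * (C a * (s.map (fun r => X - C r)).prod) +
          C (-r) * (C a * (s.map (fun r => X - C r)).prod) := by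
      rw [Multiset.map_cons, Multiset.prod_cons, C_neg]
      ring
    rw [e]
    generalize C a * (s.map (fun r => X - C r)).prod = q at h1
    refine lc_step _ _ (-r) hr h1 ?_ fun k => ?_
    · show (X * q + C (-r) * q).coeff 0 = _
      rw [coeff_add, coeff_X_mul_zero, zero_add, coeff_C_mul]
    · show (X * q + C (-r) * q).coeff (k + 1) = _
      rw [coeff_add, coeff_X_mul, coeff_C_mul]

/-- LC. -/
theorem s_lc : S_LC := by
  intro p hp h i j hij
  by_cases hp0 : p = 0
  · rw [hp0]
    simp
  have hr : RR p := h.resolve_left hp0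
  obtain ⟨a, s, hs⟩ := rr_prod _ p hp0 rfl hr
  have hroots : ∀ r ∈ s, r ≤ 0 := by
    intro r hrs
    refine no_pos p hp0 hp r ?_
    rw [hs, eval_mul]
    refine mul_eq_zero_of_right _ ?_
    rw [eval_multiset_prod, Multiset.map_map]
    refine Multiset.prod_eq_zero (Multiset.mem_map.2 ⟨r, hrs, ?_⟩)
    simp
  have hmon : (s.map (fun r => (X - C r : ℝ[X]))).prod.Monic :=
    monic_multiset_prod_of_monic _ _ fun r _ => monic_X_sub_C r
  have hlc : p.leadingCoeff = a := by
    rw [hs, leadingCoeff_mul, leadingCoeff_C, hmon.leadingCoeff, mul_one]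
  have ha : 0 ≤ a := by
    rw [← hlc]
    exact hp _
  have h1 := (lc_prod a ha s hroots).2 i j hij
  simp only at h1
  rw [← hs] at h1
  exact h1

end Pool.Agent.W366.EW
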